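import Pool.Agent.IRR46.Defs

/-!
# The polynomials `Y^(p^k) + a Y + b`

The lemmas `frob_fix` and `not_irreducible_affine` are taken over from the earlier hand-in
`NoIrreducibleSubstitution` of this problem.
-/

set_option autoImplicit false

open Polynomial

namespace Pool.Agent.IRR46

section Key

variable {E : Type} [Field E] [Finite E] (p : ℕ) [Fact p.Prime] [CharP E p]

/-- If `y` is a root of `Y^(p^k) + a Y + b` with `a, b` fixed by the `p^m`-power Frobenius, and
the Frobenius iterated `p^k` times fixes `y`, then already its `p^(k-1)`-th iterate fixes `y`. -/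
lemma frob_fix (m k : ℕ) (a b y : E) (ha : a ^ (p ^ m) = a) (hb : b ^ (p ^ m) = b)
    (hy : y ^ (p ^ k) + a * y + b = 0) (hyk : y ^ ((p ^ m) ^ (p ^ k)) = y)
    (hk1 : 1 ≤ k) (hk : k + 1 ≤ p ^ (k - 1)) : y ^ ((p ^ m) ^ (p ^ (k - 1))) = y := by
  classical
  have hp : p.Prime := Fact.out
  let _ : Algebra (ZMod p) E := ZMod.algebra E p
  have : CharP (Module.End (ZMod p) E) p :=
    charP_of_injective_algebraMap (FaithfulSMul.algebraMap_injective (ZMod p) _) p
  -- the Frobenius as a linear map
  let phi : Module.End (ZMod p) E := ((iterateFrobenius E p m).toAddMonoidHom).toZModLinearMap p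
  have phi_apply : ∀ x, phi x = x ^ (p ^ m) := fun x => rfl
  have phi_pow : ∀ (j : ℕ) (x : E), (phi ^ j) x = x ^ ((p ^ m) ^ j) := by
    intro j
    induction j with
    | zero => intro x; simp
    | succ j ih =>
      intro x
      rw [pow_succ', Module.End.mul_apply, ih, phi_apply, ← pow_mul, pow_succ]
  let N : Module.End (ZMod p) E := phi - 1
  have N_apply : ∀ x, N x = x ^ (p ^ m) - x := fun x => rfl
  have N_pow : ∀ j, N ^ (p ^ j) = phi ^ (p ^ j) - 1 := by
    intro j
    have := sub_pow_char_pow_of_commute (p := p) (n := j) (Commute.one_right phi)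
    simpa using this
  -- the additive polynomial
  let L : Module.End (ZMod p) E :=
    ((iterateFrobenius E p k).toAddMonoidHom).toZModLinearMap p + LinearMap.mulLeft (ZMod p) a
  have L_apply : ∀ x, L x = x ^ (p ^ k) + a * x := fun x => rfl
  let V : Submodule (ZMod p) E := LinearMap.ker L
  have memV : ∀ x, x ∈ V ↔ x ^ (p ^ k) + a * x = 0 := by
    intro x
    rw [LinearMap.mem_ker, L_apply]
  -- phi preserves V
  have L_phi : ∀ x, L (phi x) = phi (L x) := by
    intro x
    rw [L_apply, phi_apply, phi_apply, L_apply, add_pow_char_pow, mul_pow, ha, ← pow_mul,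
      ← pow_mul, mul_comm (p ^ m)]
  have NV : ∀ x ∈ V, N x ∈ V := by
    intro x hx
    have hx' : L x = 0 := hx
    show L (N x) = 0
    have : N x = phi x - x := rfl
    rw [this, map_sub, L_phi, hx', map_zero, sub_zero]
  -- N y lies in V
  have hNy : N y ∈ V := by
    show L (N y) = 0
    have h1 : L y = - b := by
      rw [L_apply]
      exact eq_neg_of_add_eq_zero_left hy
    have : N y = phi y - y := rfl
    rw [this, map_sub, L_phi, h1, map_neg, phi_apply, hb, sub_self]
  -- the dimension of V is at most k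
  have hcard : Nat.card V ≤ p ^ k := by
    let P : E[X] := X ^ (p ^ k) + C a * X
    have hdeg : P.natDegree = p ^ k := by
      have h1 : 1 < p ^ k := Nat.one_lt_pow (by omega) hp.one_lt
      have h2 : (C a * X : E[X]).natDegree < (X ^ (p ^ k) : E[X]).natDegree := by
        rw [natDegree_X_pow]
        exact lt_of_le_of_lt ((natDegree_C_mul_le a X).trans natDegree_X_le) h1
      show (X ^ (p ^ k) + C a * X : E[X]).natDegree = p ^ k
      rw [natDegree_add_eq_left_of_natDegree_lt h2, natDegree_X_pow]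
    have hP0 : P ≠ 0 := by
      intro h0
      rw [h0, natDegree_zero] at hdeg
      exact absurd hdeg.symm (pow_ne_zero _ hp.ne_zero)
    have hsub : (V : Set E) ⊆ (P.roots.toFinset : Set E) := by
      intro x hx
      have hx' := (memV x).1 hx
      rw [Finset.mem_coe, Multiset.mem_toFinset, mem_roots hP0, IsRoot.def]
      simpa [P] using hx'
    calc Nat.card V ≤ Nat.card (P.roots.toFinset : Set E) :=
          Nat.card_mono (Finset.finite_toSet _) hsub
      _ = P.roots.toFinset.card := by rw [Nat.card_coe_set_eq, Set.ncard_coe_finset]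
      _ ≤ Multiset.card P.roots := Multiset.toFinset_card_le _
      _ ≤ P.natDegree := card_roots' P
      _ = p ^ k := hdeg
  have hfin : Module.finrank (ZMod p) V ≤ k := by
    have : Fintype V := Fintype.ofFinite V
    have h1 := Module.card_eq_pow_finrank (K := ZMod p) (V := V)
    rw [ZMod.card, ← Nat.card_eq_fintype_card] at h1
    rw [h1] at hcard
    exact (Nat.pow_le_pow_iff_right hp.one_lt).1 hcard
  -- N^k kills N y
  let NR : Module.End (ZMod p) V := N.restrict NV
  have NR_pow : ∀ (j : ℕ) (x : V), (((NR ^ j) x : V) : E) = (N ^ j) (x : E) := by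
    intro j
    induction j with
    | zero => intro x; simp
    | succ j ih =>
      intro x
      rw [pow_succ', Module.End.mul_apply, pow_succ', Module.End.mul_apply, ← ih x]
      rfl
  have hNpk : (N ^ (p ^ k)) y = 0 := by
    rw [N_pow]
    show (phi ^ (p ^ k)) y - y = 0
    rw [phi_pow, hyk, sub_self]
  have h1 : (NR ^ (p ^ k)) ⟨N y, hNy⟩ = 0 := by
    apply Subtype.ext
    rw [NR_pow]
    show (N ^ (p ^ k)) (N y) = 0
    rw [← Module.End.mul_apply, ← pow_succ, pow_succ', Module.End.mul_apply, hNpk, map_zero]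
  have h2 : (NR ^ (Module.finrank (ZMod p) V)) ⟨N y, hNy⟩ = 0 :=
    Module.End.ker_pow_le_ker_pow_finrank NR (p ^ k) h1
  have h3 : (NR ^ k) ⟨N y, hNy⟩ = 0 := by
    rw [← Nat.sub_add_cancel hfin, pow_add, Module.End.mul_apply, h2, map_zero]
  have h4 : (N ^ (k + 1)) y = 0 := by
    have := congrArg (Subtype.val) h3
    rw [NR_pow] at this
    rw [pow_succ, Module.End.mul_apply]
    exact this
  have h5 : (N ^ (p ^ (k - 1))) y = 0 := by
    rw [← Nat.sub_add_cancel hk, pow_add, Module.End.mul_apply, h4, map_zero]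
  rw [N_pow] at h5
  have h6 : (phi ^ (p ^ (k - 1))) y - y = 0 := h5
  rw [phi_pow] at h6
  exact sub_eq_zero.1 h6

end Key

/-- Over a finite field of characteristic `p`, `Y^(p^k) + a Y + b` is never irreducible when
`k ≥ 2` and `p^k ≠ 4`. -/
lemma not_irreducible_affine {F : Type} [Field F] [Finite F] (p k m : ℕ) (hp : p.Prime)
    (hk : 2 ≤ k) (h4 : p ^ k ≠ 4) (hF : Nat.card F = p ^ m) (a b : F) :
    ¬ Irreducible (X ^ (p ^ k) + (C a * X + C b) : F[X]) := by
  intro hirr
  have : Fact p.Prime := ⟨hp⟩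
  have : Fintype F := Fintype.ofFinite F
  have hm : m ≠ 0 := by
    rintro rfl
    have := Finite.one_lt_card (α := F)
    rw [hF] at this
    simp at this
  have hchar : CharP F p := by
    obtain ⟨r, hr⟩ := CharP.exists F
    obtain ⟨n, hrp, hn⟩ := FiniteField.card F r
    have h1 : p ^ m = r ^ (n : ℕ) := by
      rw [← hF, Nat.card_eq_fintype_card, hn]
    have h2 : p ∣ r ^ (n : ℕ) := by
      rw [← h1]
      exact dvd_pow_self p hm
    have h3 : p ∣ r := hp.dvd_of_dvd_pow h2
    have h5 : p = r := (Nat.prime_dvd_prime_iff_eq hp hrp).1 h3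
    rwa [h5]
  set g : F[X] := X ^ (p ^ k) + (C a * X + C b) with hg
  have : Fact (Irreducible g) := ⟨hirr⟩
  have hgt : 1 < p ^ k := Nat.one_lt_pow (by omega) hp.one_lt
  have hlt : (C a * X + C b : F[X]).natDegree < (X ^ (p ^ k) : F[X]).natDegree := by
    rw [natDegree_X_pow]
    exact lt_of_le_of_lt natDegree_linear_le hgt
  have hdeg : g.natDegree = p ^ k := by
    rw [hg, natDegree_add_eq_left_of_natDegree_lt hlt, natDegree_X_pow]
  have hmonic : g.Monic := by
    rw [hg]
    apply Monic.add_of_left (monic_X_pow _)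
    rw [degree_eq_natDegree (monic_X_pow _).ne_zero, natDegree_X_pow]
    exact lt_of_le_of_lt degree_linear_le (by exact_mod_cast hgt)
  let E := AdjoinRoot g
  let y : E := AdjoinRoot.root g
  have : Module.Finite F E := hmonic.finite_adjoinRoot
  have : Finite E := Module.finite_of_finite F
  have : CharP E p := charP_of_injective_algebraMap (algebraMap F E).injective p
  have hcardF : Nat.card F = p ^ m := hF
  have hfix : ∀ c : F, (algebraMap F E c) ^ (p ^ m) = algebraMap F E c := by
    intro c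
    rw [← map_pow, ← hF, Nat.card_eq_fintype_card, FiniteField.pow_card]
  have hroot : y ^ (p ^ k) + algebraMap F E a * y + algebraMap F E b = 0 := by
    have h : eval₂ (AdjoinRoot.of g) y (X ^ (p ^ k) + (C a * X + C b)) = 0 :=
      AdjoinRoot.eval₂_root g
    simp only [eval₂_add, eval₂_mul, eval₂_pow, eval₂_X, eval₂_C] at h
    rw [← add_assoc] at h
    exact h
  -- divisibility by X^(q^n) - X versus roots
  have hdvd : ∀ n : ℕ, g ∣ X ^ (Nat.card F) ^ n - X ↔ y ^ ((p ^ m) ^ n) = y := by
    intro n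
    rw [← AdjoinRoot.mk_eq_zero, map_sub, map_pow, AdjoinRoot.mk_X, sub_eq_zero, hF]
  have h1 : y ^ ((p ^ m) ^ (p ^ k)) = y := by
    rw [← hdvd]
    exact hirr.natDegree_dvd_iff_dvd_X_pow_card_pow_sub_X.1 (by rw [hdeg])
  have hk' : k + 1 ≤ p ^ (k - 1) := by
    obtain ⟨j, rfl⟩ : ∃ j, k = j + 2 := ⟨k - 2, by omega⟩
    have e : j + 2 - 1 = j + 1 := by omega
    rw [e]
    rcases Nat.lt_or_ge 2 p with h3 | h3
    · have h3' : 3 ≤ p := h3
      have : 3 ^ (j + 1) ≤ p ^ (j + 1) := Nat.pow_le_pow_left h3' _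
      refine le_trans ?_ this
      clear this e h4 hF hdvd h1 hroot
      have : ∀ j : ℕ, j + 2 + 1 ≤ 3 ^ (j + 1) := by
        intro j
        induction j with
        | zero => norm_num
        | succ j ih => rw [pow_succ]; omega
      exact this j
    · have hp2 : p = 2 := le_antisymm h3 hp.two_le
      have hj : j ≠ 0 := by
        rintro rfl
        apply h4
        rw [hp2]
        norm_num
      obtain ⟨i, rfl⟩ : ∃ i, j = i + 1 := ⟨j - 1, by omega⟩
      rw [hp2]
      have : ∀ i : ℕ, i + 1 + 2 + 1 ≤ 2 ^ (i + 1 + 1) := by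
        intro i
        induction i with
        | zero => norm_num
        | succ i ih =>
          calc i + 1 + 1 + 2 + 1 ≤ (i + 1 + 2 + 1) * 2 := by omega
            _ ≤ 2 ^ (i + 1 + 1) * 2 := Nat.mul_le_mul_right 2 ih
            _ = 2 ^ (i + 1 + 1 + 1) := (pow_succ _ _).symm
      exact this i
  have h2 : y ^ ((p ^ m) ^ (p ^ (k - 1))) = y :=
    frob_fix p m k (algebraMap F E a) (algebraMap F E b) y (hfix a) (hfix b) hroot h1
      (by omega) hk'
  have h3 : g.natDegree ∣ p ^ (k - 1) :=
    hirr.natDegree_dvd_of_dvd_X_pow_card_pow_sub_X ((hdvd _).2 h2)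
  rw [hdeg] at h3
  have h5 := (Nat.pow_dvd_pow_iff_le_right hp.one_lt).1 h3
  omega

/-- A finite field of characteristic `p` has `p^m` elements. -/
lemma card_pow (F : Type) [Field F] [Fintype F] (p : ℕ) [Fact p.Prime] [CharP F p] :
    ∃ m : ℕ, 1 ≤ m ∧ Fintype.card F = p ^ m := by
  obtain ⟨n, -, hn⟩ := FiniteField.card F p
  exact ⟨n, n.2, hn⟩

/-- Degree `p^k`, all fields of characteristic `p`. -/
theorem fails_prime_pow (F : Type) [Field F] [Fintype F] (p : ℕ) [Fact p.Prime] [CharP F p]
    (k : ℕ) (hk : 2 ≤ k) (h4 : p ^ k ≠ 4) : Fails F (p ^ k) := by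
  have hp : p.Prime := Fact.out
  have hgt : 1 < p ^ k := Nat.one_lt_pow (by omega) hp.one_lt
  obtain ⟨m, -, hm⟩ := card_pow F p
  have e : (X ^ (p ^ k) + 0 : F[X]) = X ^ (p ^ k) := add_zero _
  refine ⟨fam 1 (X ^ (p ^ k) + 0), ?_, totalDegree_fam 1 _ 0 (by rw [natDegree_zero]; omega) hgt,
    ?_⟩
  · rw [← MulEquiv.irreducible_iff (toBiv : MvPolynomial (Fin 2) F ≃ₐ[F] F[X][X]), toBiv_fam]
    have h : (X ^ 1 + C (X ^ (p ^ k) + 0) : F[X][X]) = X - C (-(X ^ (p ^ k))) := by
      rw [pow_one, add_zero, map_neg, sub_neg_eq_add]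
    rw [h]
    exact irreducible_X_sub_C _
  · intro a b
    rw [lineSubst_fam]
    have h : ((C a * X + C b) ^ 1 + (X ^ (p ^ k) + 0) : F[X]) =
        X ^ (p ^ k) + (C a * X + C b) := by
      rw [pow_one, add_zero, add_comm]
    rw [h]
    exact not_irreducible_affine p k m hp hk h4 (by rw [Nat.card_eq_fintype_card, hm]) a b

/-- `Y^4 + a Y + b` is never irreducible over a field with `4^j` elements. -/
lemma not_irreducible_four {F : Type} [Field F] [Fintype F] [CharP F 2]
    (h3 : Fintype.card F % 3 = 1) (a b : F) :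
    ¬ Irreducible (X ^ 4 + (C a * X + C b) : F[X]) := by
  intro hirr
  set g : F[X] := X ^ 4 + (C a * X + C b) with hg
  have : Fact (Irreducible g) := ⟨hirr⟩
  have hlt : (C a * X + C b : F[X]).natDegree < (X ^ 4 : F[X]).natDegree := by
    rw [natDegree_X_pow]
    exact lt_of_le_of_lt natDegree_linear_le (by norm_num)
  have hdeg : g.natDegree = 4 := by
    rw [hg, natDegree_add_eq_left_of_natDegree_lt hlt, natDegree_X_pow]
  let E := AdjoinRoot g
  let y : E := AdjoinRoot.root g
  have : CharP E 2 := charP_of_injective_algebraMap (algebraMap F E).injective 2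
  have h2E : (2 : E) = 0 := by
    have := CharP.cast_eq_zero E 2
    exact_mod_cast this
  set q := Fintype.card F with hq
  set φ := FiniteField.frobeniusAlgHom F E with hφ
  have hφx : ∀ x : E, φ x = x ^ q := fun x => rfl
  have hroot : y ^ 4 + algebraMap F E a * y + algebraMap F E b = 0 := by
    have h : eval₂ (AdjoinRoot.of g) y (X ^ 4 + (C a * X + C b)) = 0 :=
      AdjoinRoot.eval₂_root g
    simp only [eval₂_add, eval₂_mul, eval₂_pow, eval₂_X, eval₂_C] at h
    rw [← add_assoc] at h
    exact h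
  have hroot' : (φ y) ^ 4 + algebraMap F E a * φ y + algebraMap F E b = 0 := by
    have h := congrArg φ hroot
    rw [map_add, map_add, map_mul, map_pow, AlgHom.commutes, AlgHom.commutes, map_zero] at h
    exact h
  have hdvd : ∀ n : ℕ, y ^ q ^ n = y → 4 ∣ n := by
    intro n hn
    have h1 : g ∣ X ^ (Nat.card F) ^ n - X := by
      rw [← AdjoinRoot.mk_eq_zero, map_sub, map_pow, AdjoinRoot.mk_X, sub_eq_zero,
        Nat.card_eq_fintype_card]
      exact hn
    have h4 := hirr.natDegree_dvd_of_dvd_X_pow_card_pow_sub_X h1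
    rwa [hdeg] at h4
  set w : E := φ y - y with hw
  have hyw : φ y = y + w := by rw [hw]; ring
  have hw4 : w ^ 4 + algebraMap F E a * w = 0 := by
    have h5 : (φ y - y) ^ 4 = (φ y) ^ 4 - y ^ 4 := by
      have := sub_pow_char_pow (R := E) (p := 2) (n := 2) (φ y) y
      norm_num at this
      exact this
    rw [hw, h5]
    linear_combination hroot' - hroot
  by_cases hw0 : w = 0
  · have h5 : y ^ q ^ 1 = y := by
      rw [pow_one, ← hφx, hyw, hw0, add_zero]
    have := hdvd 1 h5
    omega
  · have hw3 : w ^ 3 = - algebraMap F E a := by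
      apply mul_left_cancel₀ hw0
      linear_combination hw4
    have ha0 : a ≠ 0 := by
      rintro rfl
      rw [map_zero, neg_zero] at hw3
      exact hw0 (pow_eq_zero_iff (by norm_num) |>.1 hw3)
    obtain ⟨t, ht⟩ : ∃ t, q = 3 * t + 1 := ⟨q / 3, by omega⟩
    set ζ : E := w ^ (3 * t) with hζ
    have hφw : φ w = ζ * w := by
      rw [hφx, ht, pow_succ]
    have hζ3 : ζ ^ 3 = 1 := by
      have h5 : ζ ^ 3 = (w ^ 3) ^ (q - 1) := by
        rw [hζ, ← pow_mul, ← pow_mul, ht, Nat.add_sub_cancel]
        ring_nf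
      rw [h5, hw3, ← map_neg, ← map_pow, hq, FiniteField.pow_card_sub_one_eq_one _
        (neg_ne_zero.2 ha0), map_one]
    have hφζ : φ ζ = ζ := by
      rw [hφx, ht, pow_succ, pow_mul, hζ3, one_pow, one_mul]
    have h6 : φ (φ (φ (φ (φ (φ y))))) = y := by
      simp only [hyw, map_add, hφw, map_mul, hφζ]
      linear_combination w * (1 + ζ + ζ ^ 2) * hζ3 + w * (1 + ζ + ζ ^ 2) * h2E
    have h7 : y ^ q ^ 6 = y := by
      have h8 : φ (φ (φ (φ (φ (φ y))))) = y ^ q ^ 6 := by
        simp only [hφx, ← pow_mul]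
        congr 1
        ring
      rw [← h8, h6]
    have := hdvd 6 h7
    omega

/-- Degree 4, fields with `4^j` elements. -/
theorem fails_four (F : Type) [Field F] [Fintype F] [CharP F 2]
    (h3 : Fintype.card F % 3 = 1) : Fails F 4 := by
  refine ⟨fam 1 (X ^ 4 + 0), ?_, totalDegree_fam 1 _ 0 (by rw [natDegree_zero]; omega)
    (by norm_num), ?_⟩
  · rw [← MulEquiv.irreducible_iff (toBiv : MvPolynomial (Fin 2) F ≃ₐ[F] F[X][X]), toBiv_fam]
    have h : (X ^ 1 + C (X ^ 4 + 0) : F[X][X]) = X - C (-(X ^ 4)) := by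
      rw [pow_one, add_zero, map_neg, sub_neg_eq_add]
    rw [h]
    exact irreducible_X_sub_C _
  · intro a b
    rw [lineSubst_fam]
    have h : ((C a * X + C b) ^ 1 + (X ^ 4 + 0) : F[X]) = X ^ 4 + (C a * X + C b) := by
      rw [pow_one, add_zero, add_comm]
    rw [h]
    exact not_irreducible_four h3 a b

end Pool.Agent.IRR46
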