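import Pool.Agent.IRR46.Defs

/-!
# Degrees up to three: double counting of the rational points on lines
-/

set_option autoImplicit false

open Polynomial

namespace Pool.Agent.IRR46

section Divides

variable {F : Type} [Field F]

/-- If `f` vanishes along a parametrised line then the equation of the line divides `f`. -/
lemma dvd_of_subst (f : MvPolynomial (Fin 2) F) (g0 g1 : F[X]) (h l : MvPolynomial (Fin 2) F)
    (h0 : l ∣ MvPolynomial.X 0 - aeval h g0) (h1 : l ∣ MvPolynomial.X 1 - aeval h g1)
    (hf : MvPolynomial.aeval ![g0, g1] f = 0) : l ∣ f := by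
  rw [← Ideal.mem_span_singleton, ← Ideal.Quotient.eq_zero_iff_mem]
  have h2 : Ideal.Quotient.mkₐ F (Ideal.span {l}) =
      ((Ideal.Quotient.mkₐ F (Ideal.span {l})).comp (aeval h)).comp
        (MvPolynomial.aeval ![g0, g1]) := by
    apply MvPolynomial.algHom_ext
    intro i
    rw [AlgHom.comp_apply, MvPolynomial.aeval_X, AlgHom.comp_apply, Ideal.Quotient.mkₐ_eq_mk,
      Ideal.Quotient.mk_eq_mk_iff_sub_mem, Ideal.mem_span_singleton]
    fin_cases i
    · exact h0
    · exact h1
  have h3 := DFunLike.congr_fun h2 f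
  rw [AlgHom.comp_apply, AlgHom.comp_apply, hf, map_zero, map_zero] at h3
  exact h3

/-- An irreducible polynomial of degree at least two does not vanish on a line. -/
lemma subst_ne_zero (f : MvPolynomial (Fin 2) F) (hf : Irreducible f) (hd : 2 ≤ f.totalDegree)
    (g0 g1 : F[X]) (h l : MvPolynomial (Fin 2) F)
    (h0 : l ∣ MvPolynomial.X 0 - aeval h g0) (h1 : l ∣ MvPolynomial.X 1 - aeval h g1)
    (z : Fin 2 → F) (hz : MvPolynomial.eval z l = 0) (hl : l.totalDegree ≤ 1) :
    MvPolynomial.aeval ![g0, g1] f ≠ 0 := by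
  intro h2
  have h3 := dvd_of_subst f g0 g1 h l h0 h1 h2
  have hl0 : l ≠ 0 := by
    rintro rfl
    exact hf.ne_zero (zero_dvd_iff.1 h3)
  have hnu : ¬ IsUnit l := by
    intro hu
    have h4 := hu.map (MvPolynomial.eval z)
    rw [hz] at h4
    exact not_isUnit_zero h4
  obtain ⟨u, hu⟩ := h3
  have hu' : IsUnit u := (hf.isUnit_or_isUnit hu).resolve_left hnu
  have h4 : f ∣ l := by
    obtain ⟨v, hv⟩ := hu'.exists_right_inv
    refine ⟨v, ?_⟩
    rw [hu, mul_assoc, hv, mul_one]
  have h5 := MvPolynomial.totalDegree_le_of_dvd_of_isDomain h4 hl0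
  omega

lemma lineSubst_ne_zero (f : MvPolynomial (Fin 2) F) (hf : Irreducible f)
    (hd : 2 ≤ f.totalDegree) (a b : F) : lineSubst f a b ≠ 0 := by
  refine subst_ne_zero f hf hd _ _ (MvPolynomial.X 1)
    (MvPolynomial.X 0 - (MvPolynomial.C a * MvPolynomial.X 1 + MvPolynomial.C b)) ?_ ?_
    ![b, 0] ?_ ?_
  · simp only [map_add, map_mul, aeval_X, aeval_C, MvPolynomial.algebraMap_eq]
    exact dvd_rfl
  · simp
  · simp
  · refine (MvPolynomial.totalDegree_sub _ _).trans (max_le ?_ ?_)
    · rw [MvPolynomial.totalDegree_X]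
    · refine (MvPolynomial.totalDegree_add _ _).trans (max_le ?_ ?_)
      · refine (MvPolynomial.totalDegree_mul _ _).trans ?_
        rw [MvPolynomial.totalDegree_C, MvPolynomial.totalDegree_X]
      · rw [MvPolynomial.totalDegree_C]
        exact Nat.zero_le _

lemma vertical_ne_zero (f : MvPolynomial (Fin 2) F) (hf : Irreducible f)
    (hd : 2 ≤ f.totalDegree) (y : F) : MvPolynomial.aeval ![(X : F[X]), C y] f ≠ 0 := by
  refine subst_ne_zero f hf hd _ _ (MvPolynomial.X 0)
    (MvPolynomial.X 1 - MvPolynomial.C y) ?_ ?_ ![0, y] ?_ ?_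
  · simp
  · simp only [aeval_C, MvPolynomial.algebraMap_eq]
    exact dvd_rfl
  · simp
  · refine (MvPolynomial.totalDegree_sub _ _).trans (max_le ?_ ?_)
    · rw [MvPolynomial.totalDegree_X]
    · rw [MvPolynomial.totalDegree_C]
      exact Nat.zero_le _

end Divides

section Lead

variable {F : Type} [Field F]

/-- The coefficient of `Y^d` in `f(aY+b, Y)` as a polynomial in `a`. -/
noncomputable def lead (f : MvPolynomial (Fin 2) F) (d : ℕ) : F[X] :=
  ∑ s ∈ f.support with s 0 + s 1 = d, C (f.coeff s) * X ^ (s 0)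

lemma deg_le (f : MvPolynomial (Fin 2) F) (s : Fin 2 →₀ ℕ) (hs : s ∈ f.support) :
    s 0 + s 1 ≤ f.totalDegree := by
  have h := MvPolynomial.le_totalDegree hs
  rw [Finsupp.sum_fintype _ _ (fun _ => rfl), Fin.sum_univ_two] at h
  exact h

lemma subst_eq_sum (f : MvPolynomial (Fin 2) F) (g0 g1 : F[X]) :
    MvPolynomial.aeval ![g0, g1] f =
      ∑ s ∈ f.support, C (f.coeff s) * (g0 ^ s 0 * g1 ^ s 1) := by
  rw [MvPolynomial.aeval_def, MvPolynomial.eval₂_eq']
  refine Finset.sum_congr rfl fun s _ => ?_
  rw [Fin.prod_univ_two]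
  rfl

lemma natDegree_term (g0 g1 : F[X]) (h0 : g0.natDegree ≤ 1) (h1 : g1.natDegree ≤ 1) (c : F)
    (i j : ℕ) : (C c * (g0 ^ i * g1 ^ j)).natDegree ≤ i + j := by
  refine (natDegree_C_mul_le _ _).trans (natDegree_mul_le.trans (Nat.add_le_add ?_ ?_))
  · refine natDegree_pow_le.trans ?_
    calc i * g0.natDegree ≤ i * 1 := Nat.mul_le_mul_left _ h0
      _ = i := mul_one _
  · refine natDegree_pow_le.trans ?_
    calc j * g1.natDegree ≤ j * 1 := Nat.mul_le_mul_left _ h1
      _ = j := mul_one _

lemma natDegree_subst_le (f : MvPolynomial (Fin 2) F) (g0 g1 : F[X]) (h0 : g0.natDegree ≤ 1)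
    (h1 : g1.natDegree ≤ 1) : (MvPolynomial.aeval ![g0, g1] f).natDegree ≤ f.totalDegree := by
  rw [subst_eq_sum]
  refine natDegree_sum_le_of_forall_le _ _ fun s hs => ?_
  exact (natDegree_term g0 g1 h0 h1 _ _ _).trans (deg_le f s hs)

lemma natDegree_lineSubst_le (f : MvPolynomial (Fin 2) F) (a b : F) :
    (lineSubst f a b).natDegree ≤ f.totalDegree :=
  natDegree_subst_le f _ _ natDegree_linear_le natDegree_X_le

lemma coeff_lineSubst (f : MvPolynomial (Fin 2) F) (a b : F) :
    (lineSubst f a b).coeff f.totalDegree = (lead f f.totalDegree).eval a := by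
  rw [lineSubst, subst_eq_sum, finsetSum_coeff, lead, eval_finsetSum, Finset.sum_filter]
  refine Finset.sum_congr rfl fun s hs => ?_
  have h1 := deg_le f s hs
  split_ifs with h
  · rw [coeff_C_mul, ← h, coeff_mul_X_pow]
    have h2 := coeff_pow_of_natDegree_le (natDegree_linear_le (a := a) (b := b)) (m := s 0)
    rw [mul_one] at h2
    rw [h2]
    simp
  · apply coeff_eq_zero_of_natDegree_lt
    refine lt_of_le_of_lt (natDegree_term _ _ natDegree_linear_le natDegree_X_le _ _ _) ?_
    omega

lemma lead_ne_zero (f : MvPolynomial (Fin 2) F) (hf : f ≠ 0) :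
    lead f f.totalDegree ≠ 0 := by
  classical
  have hne : f.support.Nonempty := MvPolynomial.support_nonempty.2 hf
  obtain ⟨s, hs, hsd⟩ := Finset.exists_mem_eq_sup f.support hne (fun s => s.sum fun _ e => e)
  have h1 : s 0 + s 1 = f.totalDegree := by
    rw [MvPolynomial.totalDegree, hsd, Finsupp.sum_fintype _ _ (fun _ => rfl),
      Fin.sum_univ_two]
  intro h0
  have h2 : (lead f f.totalDegree).coeff (s 0) = f.coeff s := by
    rw [lead, finsetSum_coeff, Finset.sum_eq_single s]
    · rw [coeff_C_mul, coeff_X_pow, if_pos rfl, mul_one]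
    · intro t ht hts
      rw [coeff_C_mul, coeff_X_pow, if_neg, mul_zero]
      intro h3
      apply hts
      have h4 := (Finset.mem_filter.1 ht).2
      ext i
      fin_cases i
      · exact h3.symm
      · show t 1 = s 1
        omega
    · intro h3
      exact absurd (Finset.mem_filter.2 ⟨hs, h1⟩) h3
  rw [h0, coeff_zero] at h2
  exact (MvPolynomial.mem_support_iff.1 hs) h2.symm

lemma natDegree_lead_le (f : MvPolynomial (Fin 2) F) (d : ℕ) : (lead f d).natDegree ≤ d := by
  rw [lead]
  refine natDegree_sum_le_of_forall_le _ _ fun s hs => ?_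
  refine (natDegree_C_mul_X_pow_le _ _).trans ?_
  have := (Finset.mem_filter.1 hs).2
  omega

lemma eval_lineSubst (f : MvPolynomial (Fin 2) F) (g0 g1 : F[X]) (t : F) :
    (MvPolynomial.aeval ![g0, g1] f).eval t = MvPolynomial.eval ![g0.eval t, g1.eval t] f := by
  rw [subst_eq_sum, eval_finsetSum, MvPolynomial.eval_eq']
  refine Finset.sum_congr rfl fun s _ => ?_
  rw [Fin.prod_univ_two]
  simp

end Lead

section Counting

variable {F : Type} [Field F] [Fintype F] [DecidableEq F]

/-- The number of points of `Z` on the line `X = aY + b`. -/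
def onLine (Z : Finset (F × F)) (a b : F) : ℤ :=
  ∑ P ∈ Z, if P.1 = a * P.2 + b then 1 else 0

lemma onLine_eq_card (Z : Finset (F × F)) (a b : F) :
    onLine Z a b = ((Z.filter fun P => P.1 = a * P.2 + b).card : ℤ) := by
  rw [onLine, Finset.sum_ite, Finset.sum_const_zero, add_zero, Finset.sum_const, nsmul_eq_mul,
    mul_one]

lemma sum_b (P : F × F) (a : F) (u : F → ℤ) :
    ∑ b : F, (if P.1 = a * P.2 + b then 1 else 0) * u b = u (P.1 - a * P.2) := by
  rw [Finset.sum_eq_single (P.1 - a * P.2)]
  · rw [if_pos (by ring), one_mul]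
  · intro b _ hb
    rw [if_neg, zero_mul]
    intro h
    apply hb
    rw [h]
    ring
  · intro h
    exact absurd (Finset.mem_univ _) h

lemma sum_onLine (Z : Finset (F × F)) :
    ∑ a : F, ∑ b : F, onLine Z a b = (Fintype.card F : ℤ) * Z.card := by
  have h1 : ∀ a : F, ∑ b : F, onLine Z a b = Z.card := by
    intro a
    simp only [onLine]
    rw [Finset.sum_comm]
    have h2 : ∀ P ∈ Z, ∑ b : F, (if P.1 = a * P.2 + b then (1 : ℤ) else 0) = 1 := by
      intro P _
      have h3 := sum_b P a (fun _ => 1)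
      simp only [mul_one] at h3
      exact h3
    rw [Finset.sum_congr rfl h2, Finset.sum_const, nsmul_eq_mul, mul_one]
  rw [Finset.sum_congr rfl fun a _ => h1 a, Finset.sum_const, nsmul_eq_mul, Finset.card_univ]

lemma sum_onLine_sq (Z : Finset (F × F)) (d : ℤ)
    (hd : ∀ P ∈ Z, ((Z.filter fun Q => Q.2 = P.2).card : ℤ) ≤ d) :
    (Fintype.card F : ℤ) * Z.card + Z.card ^ 2 - d * Z.card ≤
      ∑ a : F, ∑ b : F, onLine Z a b ^ 2 := by
  -- exchange the sums
  have h1 : ∑ a : F, ∑ b : F, onLine Z a b ^ 2 =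
      ∑ P ∈ Z, ∑ Q ∈ Z, ∑ a : F, if Q.1 = a * Q.2 + (P.1 - a * P.2) then (1 : ℤ) else 0 := by
    have h2 : ∀ a b : F, onLine Z a b ^ 2 = ∑ P ∈ Z, ∑ Q ∈ Z,
        (if P.1 = a * P.2 + b then (1 : ℤ) else 0) *
          (if Q.1 = a * Q.2 + b then (1 : ℤ) else 0) := by
      intro a b
      rw [sq, onLine, Finset.sum_mul_sum]
    calc ∑ a : F, ∑ b : F, onLine Z a b ^ 2
        = ∑ a : F, ∑ b : F, ∑ P ∈ Z, ∑ Q ∈ Z,
          (if P.1 = a * P.2 + b then (1 : ℤ) else 0) *
            (if Q.1 = a * Q.2 + b then (1 : ℤ) else 0) :=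
          Finset.sum_congr rfl fun a _ => Finset.sum_congr rfl fun b _ => h2 a b
      _ = ∑ a : F, ∑ P ∈ Z, ∑ Q ∈ Z, ∑ b : F,
          (if P.1 = a * P.2 + b then (1 : ℤ) else 0) *
            (if Q.1 = a * Q.2 + b then (1 : ℤ) else 0) := by
          refine Finset.sum_congr rfl fun a _ => ?_
          rw [Finset.sum_comm]
          refine Finset.sum_congr rfl fun P _ => ?_
          rw [Finset.sum_comm]
      _ = ∑ a : F, ∑ P ∈ Z, ∑ Q ∈ Z,
          (if Q.1 = a * Q.2 + (P.1 - a * P.2) then (1 : ℤ) else 0) := by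
          refine Finset.sum_congr rfl fun a _ => Finset.sum_congr rfl fun P _ =>
            Finset.sum_congr rfl fun Q _ => ?_
          exact sum_b P a fun b => if Q.1 = a * Q.2 + b then (1 : ℤ) else 0
      _ = _ := by
          rw [Finset.sum_comm]
          refine Finset.sum_congr rfl fun P _ => ?_
          rw [Finset.sum_comm]
  have h3 : ∀ P Q : F × F, (if P = Q then (Fintype.card F : ℤ) else 0) +
      (1 - if Q.2 = P.2 then (1 : ℤ) else 0) ≤
      ∑ a : F, if Q.1 = a * Q.2 + (P.1 - a * P.2) then (1 : ℤ) else 0 := by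
    intro P Q
    by_cases hPQ : P = Q
    · subst hPQ
      rw [if_pos rfl, if_pos rfl]
      have h4 : ∀ a ∈ (Finset.univ : Finset F),
          (if P.1 = a * P.2 + (P.1 - a * P.2) then (1 : ℤ) else 0) = 1 := by
        intro a _
        rw [if_pos]
        ring
      rw [Finset.sum_congr rfl h4, Finset.sum_const, nsmul_eq_mul, Finset.card_univ]
      simp
    · rw [if_neg hPQ, zero_add]
      have hnn : ∀ a ∈ (Finset.univ : Finset F),
          (0 : ℤ) ≤ if Q.1 = a * Q.2 + (P.1 - a * P.2) then (1 : ℤ) else 0 := by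
        intro a _
        split_ifs <;> norm_num
      by_cases h2 : Q.2 = P.2
      · rw [if_pos h2, sub_self]
        exact Finset.sum_nonneg hnn
      · rw [if_neg h2, sub_zero]
        have h5 := Finset.single_le_sum hnn (Finset.mem_univ ((Q.1 - P.1) / (Q.2 - P.2)))
        refine le_trans (le_of_eq ?_) h5
        rw [if_pos]
        have h6 : Q.2 - P.2 ≠ 0 := sub_ne_zero.2 h2
        have h7 : (Q.1 - P.1) / (Q.2 - P.2) * (Q.2 - P.2) = Q.1 - P.1 := div_mul_cancel₀ _ h6
        linear_combination -h7
  rw [h1]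
  refine le_trans ?_ (Finset.sum_le_sum fun P _ => Finset.sum_le_sum fun Q _ => h3 P Q)
  have h4 : ∀ P ∈ Z, (Fintype.card F : ℤ) + (Z.card - d) ≤
      ∑ Q ∈ Z, ((if P = Q then (Fintype.card F : ℤ) else 0) +
      (1 - if Q.2 = P.2 then (1 : ℤ) else 0)) := by
    intro P hP
    rw [Finset.sum_add_distrib, Finset.sum_ite_eq, if_pos hP, Finset.sum_sub_distrib,
      Finset.sum_const, nsmul_eq_mul, mul_one, Finset.sum_ite, Finset.sum_const_zero, add_zero,
      Finset.sum_const, nsmul_eq_mul, mul_one]
    have := hd P hP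
    linarith
  refine le_trans (le_of_eq ?_) (Finset.sum_le_sum h4)
  rw [Finset.sum_const, nsmul_eq_mul]
  ring

/-- The main inequality. -/
lemma main_ineq (f : MvPolynomial (Fin 2) F) (hf : Irreducible f) (hd2 : 2 ≤ f.totalDegree)
    (hd3 : f.totalDegree ≤ 3) (hbad : ∀ a b : F, ¬ Irreducible (lineSubst f a b)) :
    ∃ M : ℤ, M ^ 2 - (f.totalDegree : ℤ) * (Fintype.card F + 1) * M +
      (f.totalDegree : ℤ) * (Fintype.card F) ^ 2 ≤
        (f.totalDegree : ℤ) ^ 2 * (Fintype.card F) := by
  classical
  set d := f.totalDegree with hd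
  set q := Fintype.card F with hq
  let Z : Finset (F × F) := Finset.univ.filter fun P => MvPolynomial.eval ![P.1, P.2] f = 0
  have hZ : ∀ P, P ∈ Z ↔ MvPolynomial.eval ![P.1, P.2] f = 0 := by
    intro P
    simp [Z]
  refine ⟨Z.card, ?_⟩
  -- points with a given second coordinate
  have hvert : ∀ P ∈ Z, ((Z.filter fun Q => Q.2 = P.2).card : ℤ) ≤ d := by
    intro P _
    have hne := vertical_ne_zero f hf hd2 P.2
    have h1 : (Z.filter fun Q => Q.2 = P.2).card ≤
        (MvPolynomial.aeval ![(X : F[X]), C P.2] f).natDegree := by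
      refine le_trans ?_ (card_roots' _)
      refine le_trans ?_ (Multiset.toFinset_card_le _)
      refine Finset.card_le_card_of_injOn Prod.fst ?_ ?_
      · intro Q hQ
        obtain ⟨hQ1, hQ2⟩ := Finset.mem_filter.1 (Finset.mem_coe.1 hQ)
        rw [Finset.mem_coe, Multiset.mem_toFinset, mem_roots hne, IsRoot.def, eval_lineSubst,
          eval_X, eval_C, ← hQ2]
        exact (hZ Q).1 hQ1
      · intro Q hQ R hR hQR
        have h2 := (Finset.mem_filter.1 (Finset.mem_coe.1 hQ)).2
        have h3 := (Finset.mem_filter.1 (Finset.mem_coe.1 hR)).2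
        exact Prod.ext hQR (h2.trans h3.symm)
    have h2 : (MvPolynomial.aeval ![(X : F[X]), C P.2] f).natDegree ≤ d :=
      natDegree_subst_le f _ _ natDegree_X_le (by rw [natDegree_C]; exact Nat.zero_le _)
    exact_mod_cast h1.trans h2
  have hS2 := sum_onLine_sq Z d hvert
  have hS1 := sum_onLine Z
  -- points on lines
  have hline : ∀ a b : F, onLine Z a b ≤ d := by
    intro a b
    have hne := lineSubst_ne_zero f hf hd2 a b
    rw [onLine_eq_card]
    have h1 : (Z.filter fun P => P.1 = a * P.2 + b).card ≤ (lineSubst f a b).natDegree := by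
      refine le_trans ?_ (card_roots' _)
      refine le_trans ?_ (Multiset.toFinset_card_le _)
      refine Finset.card_le_card_of_injOn Prod.snd ?_ ?_
      · intro Q hQ
        obtain ⟨hQ1, hQ2⟩ := Finset.mem_filter.1 (Finset.mem_coe.1 hQ)
        rw [Finset.mem_coe, Multiset.mem_toFinset, mem_roots hne, IsRoot.def, lineSubst,
          eval_lineSubst]
        simp only [eval_add, eval_mul, eval_C, eval_X]
        rw [← hQ2]
        exact (hZ Q).1 hQ1
      · intro Q hQ R hR hQR
        have h2 := (Finset.mem_filter.1 (Finset.mem_coe.1 hQ)).2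
        have h3 := (Finset.mem_filter.1 (Finset.mem_coe.1 hR)).2
        refine Prod.ext ?_ hQR
        rw [h2, h3, hQR]
    exact_mod_cast h1.trans (natDegree_lineSubst_le f a b)
  have hnn : ∀ a b : F, 0 ≤ onLine Z a b := by
    intro a b
    rw [onLine_eq_card]
    exact Int.natCast_nonneg _
  have hgood : ∀ a b : F, (lead f d).eval a ≠ 0 → 1 ≤ onLine Z a b := by
    intro a b ha
    have hdeg : (lineSubst f a b).natDegree = d := by
      apply le_antisymm (natDegree_lineSubst_le f a b)
      apply le_natDegree_of_ne_zero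
      rw [coeff_lineSubst]
      exact ha
    obtain ⟨y, hy⟩ : ∃ y, IsRoot (lineSubst f a b) y := by
      by_contra hcon
      apply hbad a b
      apply irreducible_of_degree_le_three_of_not_isRoot
      · rw [hdeg, Finset.mem_Icc]
        omega
      · intro x hx
        exact hcon ⟨x, hx⟩
    rw [onLine_eq_card]
    have h1 : (a * y + b, y) ∈ Z.filter fun P => P.1 = a * P.2 + b := by
      rw [Finset.mem_filter, hZ]
      refine ⟨?_, rfl⟩
      rw [IsRoot.def, lineSubst, eval_lineSubst] at hy
      simpa using hy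
    have h2 := Finset.card_pos.2 ⟨_, h1⟩
    exact_mod_cast h2
  -- the number of bad directions
  have hlead0 : lead f d ≠ 0 := lead_ne_zero f hf.ne_zero
  have hbadcard : ((Finset.univ.filter fun a : F => (lead f d).eval a = 0).card : ℤ) ≤ d := by
    have h1 : (Finset.univ.filter fun a : F => (lead f d).eval a = 0).card ≤
        (lead f d).natDegree := by
      refine le_trans ?_ (card_roots' _)
      refine le_trans (Finset.card_le_card ?_) (Multiset.toFinset_card_le _)
      intro a ha
      rw [Multiset.mem_toFinset, mem_roots hlead0]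
      exact (Finset.mem_filter.1 ha).2
    exact_mod_cast h1.trans (natDegree_lead_le f d)
  -- upper bound
  have hup : ∀ a b : F, (onLine Z a b - 1) * (onLine Z a b - d) ≤
      d * if (lead f d).eval a = 0 then (1 : ℤ) else 0 := by
    intro a b
    have h1 := hline a b
    have h2 := hnn a b
    split_ifs with h
    · rcases eq_or_lt_of_le h2 with h0 | h0
      · rw [← h0]
        linarith
      · have h3 : 1 ≤ onLine Z a b := h0
        have h4 : (onLine Z a b - 1) * (onLine Z a b - d) ≤ 0 :=
          mul_nonpos_of_nonneg_of_nonpos (by linarith) (by linarith)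
        have h5 : (0 : ℤ) ≤ d := Int.natCast_nonneg _
        linarith
    · have h3 := hgood a b h
      rw [mul_zero]
      exact mul_nonpos_of_nonneg_of_nonpos (by linarith) (by linarith)
  have hsum := Finset.sum_le_sum fun a (_ : a ∈ (Finset.univ : Finset F)) =>
    Finset.sum_le_sum fun b (_ : b ∈ (Finset.univ : Finset F)) => hup a b
  have hR : ∑ a : F, ∑ b : F, (d : ℤ) * (if (lead f d).eval a = 0 then (1 : ℤ) else 0) ≤
      d ^ 2 * q := by
    have h1 : ∀ a : F, ∑ b : F, (d : ℤ) * (if (lead f d).eval a = 0 then (1 : ℤ) else 0) =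
        q * d * (if (lead f d).eval a = 0 then (1 : ℤ) else 0) := by
      intro a
      rw [Finset.sum_const, nsmul_eq_mul, Finset.card_univ, mul_assoc]
    rw [Finset.sum_congr rfl fun a _ => h1 a, ← Finset.mul_sum, Finset.sum_ite,
      Finset.sum_const_zero, add_zero, Finset.sum_const, nsmul_eq_mul, mul_one]
    have h2 : (0 : ℤ) ≤ q * d := by positivity
    calc (q : ℤ) * d * ((Finset.univ.filter fun a : F => (lead f d).eval a = 0).card : ℤ)
        ≤ q * d * d := mul_le_mul_of_nonneg_left hbadcard h2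
      _ = d ^ 2 * q := by ring
  have hL : ∑ a : F, ∑ b : F, (onLine Z a b - 1) * (onLine Z a b - d) =
      (∑ a : F, ∑ b : F, onLine Z a b ^ 2) - (d + 1) * (q * Z.card) + d * q ^ 2 := by
    have h1 : ∀ a b : F, (onLine Z a b - 1) * (onLine Z a b - d) =
        onLine Z a b ^ 2 - (d + 1) * onLine Z a b + d := by
      intro a b
      ring
    simp only [h1, Finset.sum_add_distrib, Finset.sum_sub_distrib, ← Finset.mul_sum, hS1,
      Finset.sum_const, nsmul_eq_mul, Finset.card_univ]
    rw [← hq]
    ring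
  rw [hL] at hsum
  have hfin := hsum.trans hR
  nlinarith [hfin, hS2]

end Counting

section Positive

variable {F : Type} [Field F] [Fintype F]

/-- The positive part: degrees at most three. -/
theorem not_fails (d : ℕ) (hd : d ≤ 3) (hq : d ^ 4 < Fintype.card F) : ¬ Fails F d := by
  classical
  rintro ⟨f, hf, rfl, hbad⟩
  by_cases h2 : 2 ≤ f.totalDegree
  · obtain ⟨M, hM⟩ := main_ineq f hf h2 hd hbad
    have h3 : f.totalDegree = 2 ∨ f.totalDegree = 3 := by omega
    rcases h3 with h | h
    · rw [h] at hM hq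
      have hq' : (17 : ℤ) ≤ Fintype.card F := by exact_mod_cast hq
      push_cast at hM
      nlinarith [sq_nonneg (M - (Fintype.card F + 1))]
    · rw [h] at hM hq
      have hq' : (82 : ℤ) ≤ Fintype.card F := by exact_mod_cast hq
      push_cast at hM
      nlinarith [sq_nonneg (2 * M - 3 * (Fintype.card F + 1))]
  · -- degree at most one
    have h1 : f.totalDegree ≠ 0 := by
      intro h0
      have hC := MvPolynomial.totalDegree_eq_zero_iff_eq_C.1 h0
      by_cases hc : f.coeff 0 = 0
      · rw [hc, map_zero] at hC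
        exact hf.ne_zero hC
      · apply hf.not_isUnit
        rw [hC]
        exact (IsUnit.mk0 _ hc).map MvPolynomial.C
    have hd1 : f.totalDegree = 1 := by omega
    -- a good direction
    obtain ⟨a, ha⟩ : ∃ a : F, (lead f f.totalDegree).eval a ≠ 0 := by
      by_contra hcon
      push Not at hcon
      have hlead0 : lead f f.totalDegree ≠ 0 := lead_ne_zero f hf.ne_zero
      have h4 : Fintype.card F ≤ (lead f f.totalDegree).natDegree := by
        rw [← Finset.card_univ]
        refine le_trans ?_ (card_roots' _)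
        refine le_trans (Finset.card_le_card ?_) (Multiset.toFinset_card_le _)
        intro a _
        rw [Multiset.mem_toFinset, mem_roots hlead0]
        exact hcon a
      have h5 := natDegree_lead_le f f.totalDegree
      have h6 : 1 < Fintype.card F := Fintype.one_lt_card
      omega
    apply hbad a 0
    apply irreducible_of_degree_eq_one
    have hdeg : (lineSubst f a 0).natDegree = 1 := by
      apply le_antisymm
      · rw [← hd1]
        exact natDegree_lineSubst_le f a 0
      · apply le_natDegree_of_ne_zero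
        rw [← hd1, coeff_lineSubst]
        exact ha
    exact (degree_eq_iff_natDegree_eq_of_pos one_pos).2 hdeg

end Positive

end Pool.Agent.IRR46
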