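import Mathlib

set_option autoImplicit false

namespace Pool.Agent.IRR46

/-- If all odd primes below the prime `d ≥ 5` were squares modulo `d`, then everything would be. -/
lemma exists_prime_nonresidue (d : ℕ) [Fact d.Prime] (h5 : 5 ≤ d) :
    ∃ p, p.Prime ∧ p ≠ 2 ∧ p < d ∧ ¬ IsSquare (p : ZMod d) := by
  by_contra hcon
  have hd : d.Prime := Fact.out
  have hdodd : d % 2 = 1 := by
    rcases hd.eq_two_or_odd with h | h
    · omega
    · exact h
  have H : ∀ p : ℕ, p.Prime → p ≠ 2 → p < d → IsSquare (p : ZMod d) := by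
    intro p h1 h2 h3
    by_contra h4
    exact hcon ⟨p, h1, h2, h3, h4⟩
  have H1 : ∀ n : ℕ, n % 2 = 1 → n < d → IsSquare (n : ZMod d) := by
    intro n
    induction n using Nat.strong_induction_on with
    | _ n ih =>
      intro hodd hlt
      by_cases h1 : n = 1
      · rw [h1, Nat.cast_one]
        exact IsSquare.one
      · obtain ⟨m, hm⟩ := Nat.minFac_dvd n
        have hp : n.minFac.Prime := Nat.minFac_prime h1
        have hp2 : n.minFac ≠ 2 := by
          intro h2
          rw [h2] at hm
          omega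
        have hm0 : 0 < m := by
          rcases Nat.eq_zero_or_pos m with h | h
          · rw [h] at hm
            omega
          · exact h
        have hmn : m < n := by
          conv_rhs => rw [hm]
          nlinarith [hp.two_le]
        have hmodd : m % 2 = 1 := by
          by_contra h2
          have h3 : m % 2 = 0 := by omega
          have h4 : n % 2 = 0 := by
            rw [hm, Nat.mul_mod, h3, mul_zero, Nat.zero_mod]
          omega
        rw [hm, Nat.cast_mul]
        refine IsSquare.mul ?_ (ih m hmn hmodd (lt_trans hmn hlt))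
        exact H _ hp hp2 (lt_of_le_of_lt (Nat.minFac_le (by omega)) hlt)
  have h4 : IsSquare (-4 : ZMod d) := by
    have h1 := H1 (d - 4) (by omega) (by omega)
    rw [Nat.cast_sub (by omega), ZMod.natCast_self, zero_sub] at h1
    exact_mod_cast h1
  have h2ne : (2 : ZMod d) ≠ 0 := by
    intro h0
    have h1 : ((2 : ℕ) : ZMod d) = 0 := by exact_mod_cast h0
    rw [ZMod.natCast_eq_zero_iff] at h1
    have := Nat.le_of_dvd (by norm_num) h1
    omega
  have hneg : IsSquare (-1 : ZMod d) := by
    obtain ⟨t, ht⟩ := h4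
    refine ⟨t / 2, ?_⟩
    rw [div_mul_div_comm, ← ht]
    rw [eq_div_iff (mul_ne_zero h2ne h2ne)]
    ring
  have hall : ∀ x : ZMod d, IsSquare x := by
    intro x
    have hx : ((x.val : ℕ) : ZMod d) = x := ZMod.natCast_zmod_val x
    have hlt : x.val < d := ZMod.val_lt x
    rcases Nat.mod_two_eq_zero_or_one x.val with h | h
    · by_cases h0 : x.val = 0
      · rw [← hx, h0, Nat.cast_zero]
        exact IsSquare.zero
      · have h1 := H1 (d - x.val) (by omega) (by omega)
        rw [Nat.cast_sub hlt.le, ZMod.natCast_self, zero_sub, hx] at h1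
        have h2 := h1.mul hneg
        simpa using h2
    · rw [← hx]
      exact H1 _ h hlt
  obtain ⟨z, hz⟩ := FiniteField.exists_nonsquare (F := ZMod d) (by
    rw [ZMod.ringChar_zmod_n]
    omega)
  exact hz (hall z)

/-- Quadratic reciprocity in the form needed. -/
lemma nonsquare_recip (p k : ℕ) [Fact p.Prime] [Fact (2 * k + 1).Prime] (hp2 : p ≠ 2)
    (h : ¬ IsSquare (p : ZMod (2 * k + 1))) :
    ¬ IsSquare ((((-1) ^ k * ((2 * k + 1 : ℕ) : ℤ) : ℤ)) : ZMod p) := by
  have hp : p.Prime := Fact.out
  have hpodd : p % 2 = 1 := hp.eq_two_or_odd.resolve_left hp2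
  have h1 : legendreSym (2 * k + 1) (p : ℤ) = -1 := by
    rw [legendreSym.eq_neg_one_iff]
    exact_mod_cast h
  rw [legendreSym.quadratic_reciprocity' hp2 (by omega)] at h1
  have e1 : (2 * k + 1) / 2 = k := by omega
  rw [e1] at h1
  rw [← legendreSym.eq_neg_one_iff p, legendreSym.mul]
  refine Eq.trans ?_ h1
  congr 1
  have h2 : legendreSym p ((-1) ^ k) = (legendreSym p (-1)) ^ k :=
    map_pow (legendreSym.hom p) (-1) k
  rw [h2, legendreSym.at_neg_one hp2, ZMod.χ₄_eq_neg_one_pow hpodd, pow_mul]

/-- A nonsquare of the prime field stays a nonsquare in extensions of odd degree. -/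
lemma nonsquare_transfer (F : Type) [Field F] [Fintype F] (p m : ℕ) [Fact p.Prime] [CharP F p]
    (hp2 : p ≠ 2) (hm : Odd m) (hcard : Fintype.card F = p ^ m) (z : ℤ)
    (hz : ¬ IsSquare (z : ZMod p)) : ¬ IsSquare (z : F) := by
  have hp : p.Prime := Fact.out
  have hpodd : p % 2 = 1 := hp.eq_two_or_odd.resolve_left hp2
  have h1 : ((z : ZMod p)) ^ (p / 2) = -1 := by
    rw [← legendreSym.eq_pow, (legendreSym.eq_neg_one_iff p).2 hz]
    simp
  have h2 : (z : F) ^ (p / 2) = -1 := by
    have h3 : ((z ^ (p / 2) + 1 : ℤ) : ZMod p) = 0 := by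
      push_cast
      rw [h1]
      ring
    rw [ZMod.intCast_zmod_eq_zero_iff_dvd, ← CharP.intCast_eq_zero_iff F p] at h3
    push_cast at h3
    exact eq_neg_of_add_eq_zero_left h3
  have hz0 : (z : F) ≠ 0 := by
    intro h0
    rw [h0, zero_pow] at h2
    · exact neg_ne_zero.2 one_ne_zero h2.symm
    · have := hp.two_le
      omega
  have hringChar : ringChar F ≠ 2 := by
    rw [ringChar.eq F p]
    exact hp2
  obtain ⟨t, ht⟩ : ∃ t, p = 2 * t + 1 := ⟨p / 2, by omega⟩
  set S := ∑ i ∈ Finset.range m, p ^ i with hS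
  have hcard2 : Fintype.card F / 2 = p / 2 * S := by
    have h3 := geom_sum_mul_add (2 * t) m
    rw [← ht, ← hS] at h3
    have e1 : p / 2 = t := by omega
    rw [hcard, ← h3, e1]
    have e2 : S * (2 * t) + 1 = 2 * (t * S) + 1 := by ring
    rw [e2]
    omega
  rw [FiniteField.isSquare_iff hringChar hz0, hcard2, pow_mul, h2, hS,
    ← Finset.prod_pow_eq_pow_sum]
  have h3 : ∀ i ∈ Finset.range m, (-1 : F) ^ p ^ i = -1 := by
    intro i _
    apply Odd.neg_one_pow
    exact (Nat.odd_iff.2 hpodd).pow
  rw [Finset.prod_congr rfl h3, Finset.prod_const, Finset.card_range, hm.neg_one_pow]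
  intro h4
  exact Ring.neg_one_ne_one_of_char_ne_two hringChar h4

end Pool.Agent.IRR46
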