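import Pool.Agent.IRR46.OddCases
import Pool.Agent.IRR46.PrimeDegree
import Pool.Agent.IRR46.Affine
import Pool.Agent.IRR46.Count

set_option autoImplicit false

namespace Pool.Agent.IRR46

/-- A field with `p^m` elements. -/
lemma exists_field (p m : ℕ) [Fact p.Prime] (hm : 1 ≤ m) :
    ∃ (F : Type) (_ : Field F) (_ : Fintype F), CharP F p ∧ Fintype.card F = p ^ m := by
  have : Fintype (GaloisField p m) := Fintype.ofFinite _
  refine ⟨GaloisField p m, inferInstance, inferInstance, inferInstance, ?_⟩
  rw [← Nat.card_eq_fintype_card, GaloisField.card p m (by omega)]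

lemma lt_pow_of_le (p m B : ℕ) (hp : 2 ≤ p) (hB : B ≤ m) : B < p ^ m :=
  lt_of_le_of_lt hB (Nat.lt_pow_self hp)

/-- For every `d ≥ 4` the assertion fails over arbitrarily large finite fields. -/
theorem fails_unbounded (d : ℕ) (h4 : 4 ≤ d) (B : ℕ) :
    ∃ (F : Type) (_ : Field F) (_ : Fintype F), B < Fintype.card F ∧ Fails F d := by
  by_cases hd : d.Prime
  · -- prime degree
    have hodd : d % 2 = 1 := by
      rcases hd.eq_two_or_odd with h | h
      · omega
      · exact h
    have h5 : 5 ≤ d := by
      rcases Nat.lt_or_ge 4 d with h | h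
      · exact h
      · omega
    obtain ⟨k, rfl⟩ : ∃ k, d = 2 * k + 1 := ⟨d / 2, by omega⟩
    have : Fact (2 * k + 1).Prime := ⟨hd⟩
    obtain ⟨p, hp, hp2, hlt, hns⟩ := exists_prime_nonresidue (2 * k + 1) h5
    have : Fact p.Prime := ⟨hp⟩
    obtain ⟨F, _, _, hchar, hcard⟩ := exists_field p (2 * B + 1) (by omega)
    refine ⟨F, inferInstance, inferInstance, ?_, ?_⟩
    · rw [hcard]
      exact lt_pow_of_le p _ B hp.two_le (by omega)
    · have h1 := nonsquare_recip p k hp2 hns
      have h2 := nonsquare_transfer F p (2 * B + 1) hp2 (odd_two_mul_add_one B) hcard _ h1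
      refine fails_prime p hp2 k (by omega) hlt ?_
      push_cast at h2 ⊢
      exact h2
  · rcases Nat.eq_two_pow_or_exists_odd_prime_and_dvd d with ⟨k, hk⟩ | ⟨p, hp, hpd, hpodd⟩
    · -- powers of two
      have hk2 : 2 ≤ k := by
        by_contra h
        have h1 : k = 0 ∨ k = 1 := by omega
        rcases h1 with h1 | h1 <;> rw [h1] at hk <;> omega
      have : Fact (Nat.Prime 2) := ⟨Nat.prime_two⟩
      by_cases h : k = 2
      · obtain ⟨F, _, _, hchar, hcard⟩ := exists_field 2 (2 * (B + 1)) (by omega)
        refine ⟨F, inferInstance, inferInstance, ?_, ?_⟩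
        · rw [hcard]
          exact lt_pow_of_le 2 _ B le_rfl (by omega)
        · rw [hk, h]
          apply fails_four
          rw [hcard, pow_mul, Nat.pow_mod]
          norm_num
      · obtain ⟨F, _, _, hchar, hcard⟩ := exists_field 2 (B + 1) (by omega)
        refine ⟨F, inferInstance, inferInstance, ?_, ?_⟩
        · rw [hcard]
          exact lt_pow_of_le 2 _ B le_rfl (by omega)
        · rw [hk]
          apply fails_prime_pow F 2 k hk2
          intro h1
          apply h
          have h3 : (2 : ℕ) ^ k = 2 ^ 2 := by rw [h1]; norm_num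
          exact Nat.pow_right_injective le_rfl h3
    · -- an odd prime divisor
      have : Fact p.Prime := ⟨hp⟩
      have hp2 : p ≠ 2 := by
        rintro rfl
        exact absurd hpodd (by decide)
      have hlt : p < d := by
        rcases Nat.lt_or_ge p d with h | h
        · exact h
        · exfalso
          apply hd
          have h1 : p = d := le_antisymm (Nat.le_of_dvd (by omega) hpd) h
          rwa [← h1]
      obtain ⟨F, _, _, hchar, hcard⟩ := exists_field p (2 * (B + 1)) (by omega)
      refine ⟨F, inferInstance, inferInstance, ?_, ?_⟩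
      · rw [hcard]
        exact lt_pow_of_le p _ B hp.two_le (by omega)
      · apply fails_mult p hp2 d hpd hlt
        right
        right
        rw [FiniteField.isSquare_neg_one_iff, hcard, pow_mul, Nat.pow_mod]
        have h1 : p ^ 2 % 4 = 1 := by
          have h2 : p % 4 = 1 ∨ p % 4 = 3 := by
            have := Nat.odd_iff.1 hpodd
            omega
          rcases h2 with h2 | h2 <;> rw [Nat.pow_mod, h2]
        rw [h1, one_pow]
        norm_num

end Pool.Agent.IRR46
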