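import Mathlib

set_option autoImplicit false

open Polynomial

namespace Pool.Agent.IRR46

/-- The substitution `g_{a,b}(Y) = f(aY + b, Y)`: the variable `X 0` (called `X` in the
problem) is replaced by `a Y + b` and the variable `X 1` (called `Y`) is kept. -/
noncomputable def lineSubst {F : Type} [Field F] (f : MvPolynomial (Fin 2) F) (a b : F) : F[X] :=
  MvPolynomial.aeval ![C a * X + C b, X] f

/-- There is an irreducible `f ∈ F[X,Y]` of total degree `d` such that `f(aY + b, Y)` is not
irreducible for any `a, b ∈ F`. -/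
def Fails (F : Type) [Field F] (d : ℕ) : Prop :=
  ∃ f : MvPolynomial (Fin 2) F, Irreducible f ∧ f.totalDegree = d ∧
    ∀ a b : F, ¬ Irreducible (lineSubst f a b)

section Family

variable {F : Type} [Field F]

/-- The polynomial `X^p + h(Y)`. -/
noncomputable def fam (p : ℕ) (h : F[X]) : MvPolynomial (Fin 2) F :=
  MvPolynomial.X 0 ^ p + aeval (MvPolynomial.X 1) h

lemma lineSubst_fam (p : ℕ) (h : F[X]) (a b : F) :
    lineSubst (fam p h) a b = (C a * X + C b) ^ p + h := by
  have h1 : MvPolynomial.aeval ![C a * X + C b, X]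
      (aeval (MvPolynomial.X 1 : MvPolynomial (Fin 2) F) h) = h := by
    rw [← aeval_algHom_apply]
    simp
  simp only [lineSubst, fam, map_add, map_pow, h1, MvPolynomial.aeval_X]
  simp

lemma totalDegree_aeval_le (h : F[X]) :
    (aeval (MvPolynomial.X 1) h : MvPolynomial (Fin 2) F).totalDegree ≤ h.natDegree := by
  rw [aeval_eq_sum_range]
  refine (MvPolynomial.totalDegree_finsetSum _ _).trans (Finset.sup_le fun i hi => ?_)
  refine (MvPolynomial.totalDegree_smul_le _ _).trans ?_
  rw [MvPolynomial.totalDegree_X_pow]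
  have := Finset.mem_range.1 hi
  omega

lemma totalDegree_fam (p d : ℕ) (u : F[X]) (hu : u.natDegree < d) (hpd : p < d) :
    (fam p (X ^ d + u)).totalDegree = d := by
  have h1 : fam p (X ^ d + u) = MvPolynomial.X 1 ^ d +
      (MvPolynomial.X 0 ^ p + aeval (MvPolynomial.X 1) u) := by
    simp only [fam, map_add, map_pow, aeval_X]
    ring
  have h2 : (MvPolynomial.X 0 ^ p + aeval (MvPolynomial.X 1) u :
      MvPolynomial (Fin 2) F).totalDegree < d := by
    refine lt_of_le_of_lt (MvPolynomial.totalDegree_add _ _) (max_lt ?_ ?_)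
    · rw [MvPolynomial.totalDegree_X_pow]
      exact hpd
    · exact lt_of_le_of_lt (totalDegree_aeval_le u) hu
  rw [h1, MvPolynomial.totalDegree_add_eq_left_of_totalDegree_lt,
    MvPolynomial.totalDegree_X_pow]
  rw [MvPolynomial.totalDegree_X_pow]
  exact h2

/-- `F[X,Y]` as a polynomial ring over `F[Y]`. -/
noncomputable def toBiv : MvPolynomial (Fin 2) F ≃ₐ[F] F[X][X] :=
  (MvPolynomial.finSuccEquiv F 1).trans
    (Polynomial.mapAlgEquiv (MvPolynomial.uniqueAlgEquiv F (Fin 1)))

lemma toBiv_X0 : toBiv (MvPolynomial.X 0 : MvPolynomial (Fin 2) F) = X := by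
  simp [toBiv, MvPolynomial.finSuccEquiv_X_zero]

lemma toBiv_X1 : toBiv (MvPolynomial.X 1 : MvPolynomial (Fin 2) F) = C X := by
  have h1 : (1 : Fin 2) = Fin.succ 0 := rfl
  simp only [toBiv, AlgEquiv.trans_apply]
  rw [h1, MvPolynomial.finSuccEquiv_X_succ]
  simp

lemma toBiv_fam (p : ℕ) (h : F[X]) : toBiv (fam p h) = X ^ p + C h := by
  have h1 : toBiv (aeval (MvPolynomial.X 1) h : MvPolynomial (Fin 2) F) = C h := by
    calc toBiv (aeval (MvPolynomial.X 1) h : MvPolynomial (Fin 2) F)
        = aeval (toBiv (MvPolynomial.X 1 : MvPolynomial (Fin 2) F)) h :=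
          (aeval_algHom_apply (toBiv : MvPolynomial (Fin 2) F ≃ₐ[F] F[X][X]).toAlgHom _ h).symm
      _ = aeval ((CAlgHom : F[X] →ₐ[F] F[X][X]) X) h := by
          rw [toBiv_X1]
          rfl
      _ = (CAlgHom : F[X] →ₐ[F] F[X][X]) (aeval X h) := aeval_algHom_apply _ _ h
      _ = C h := by
          rw [aeval_X_left_apply]
          rfl
  rw [fam, map_add, map_pow, toBiv_X0, h1]

/-- `X^p + h(Y)` is irreducible if `h` has a simple root (Eisenstein). -/
lemma irreducible_fam (p : ℕ) (hp : 0 < p) (h : F[X]) (r : F) (hr : h.eval r = 0)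
    (hr' : (derivative h).eval r ≠ 0) : Irreducible (fam p h) := by
  rw [← MulEquiv.irreducible_iff (toBiv : MvPolynomial (Fin 2) F ≃ₐ[F] F[X][X]), toBiv_fam]
  have hdeg : (X ^ p + C h : F[X][X]).degree = p := degree_X_pow_add_C hp h
  have hmon : (X ^ p + C h : F[X][X]).Monic := monic_X_pow_add_C h hp.ne'
  have hprime : (Ideal.span {(X - C r : F[X])}).IsPrime := by
    rw [Ideal.span_singleton_prime (X_sub_C_ne_zero r)]
    exact prime_X_sub_C r
  refine irreducible_of_eisenstein_criterion (P := Ideal.span {(X - C r : F[X])}) hprime ?_ ?_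
    ?_ ?_ hmon.isPrimitive
  · rw [hmon.leadingCoeff]
    exact fun h1 => hprime.ne_top ((Ideal.eq_top_iff_one _).2 h1)
  · intro n hn
    rw [hdeg] at hn
    have hn' : n < p := by exact_mod_cast hn
    rw [coeff_add, coeff_X_pow, if_neg hn'.ne, zero_add, coeff_C]
    split_ifs
    · rw [Ideal.mem_span_singleton, dvd_iff_isRoot]
      exact hr
    · exact Ideal.zero_mem _
  · rw [hdeg]
    exact_mod_cast hp
  · rw [coeff_add, coeff_X_pow, if_neg hp.ne, zero_add, coeff_C_zero,
      Ideal.span_singleton_pow, Ideal.mem_span_singleton]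
    rintro ⟨k, hk⟩
    apply hr'
    rw [hk]
    simp [derivative_mul, derivative_pow]

end Family

end Pool.Agent.IRR46
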