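import Mathlib

set_option autoImplicit false

open Polynomial

namespace Pool.Agent.IRR46

section

variable {F L : Type} [Field F] [Fintype F] [Field L] [Finite L] [Algebra F L]

/-- An element of a finite extension which is fixed by the Frobenius lies in the base field. -/
lemma exists_of_frob_fixed (x : L) (hx : x ^ Fintype.card F = x) : ∃ c : F, algebraMap F L c = x := by
  classical
  have : IsGalois F L := inferInstance
  have h1 : x ∈ Set.range (algebraMap F L) := by
    rw [IsGalois.mem_range_algebraMap_iff_fixed]
    intro f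
    obtain ⟨n, hn⟩ := (FiniteField.bijective_frobeniusAlgEquivOfAlgebraic_pow F L).2 f
    rw [← hn]
    simp only
    rw [AlgEquiv.coe_pow, FiniteField.coe_frobeniusAlgEquivOfAlgebraic_iterate]
    have h2 : ∀ k : ℕ, x ^ Fintype.card F ^ k = x := by
      intro k
      induction k with
      | zero => simp
      | succ k ih => rw [pow_succ, pow_mul, ih, hx]
    exact h2 _
  obtain ⟨c, hc⟩ := h1
  exact ⟨c, hc⟩

/-- Stickelberger's parity theorem for one factor: the discriminant of a power basis of an
extension of finite fields of odd characteristic is a square iff the degree is odd. -/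
theorem isSquare_discr_iff (h2 : (2 : F) ≠ 0) (pb : PowerBasis F L) :
    IsSquare (Algebra.discr F pb.basis) ↔ Odd pb.dim := by
  classical
  set q := Fintype.card F with hq
  have hfr : Module.finrank F L = pb.dim := pb.finrank
  obtain ⟨n, hn⟩ : ∃ n, pb.dim = n + 1 :=
    ⟨pb.dim - 1, by have := pb.dim_pos; omega⟩
  let E := AlgebraicClosure L
  let w : Fin pb.dim → (L →ₐ[F] E) := fun i =>
    (IsScalarTower.toAlgHom F L E).comp (FiniteField.frobeniusAlgHom F L ^ (i : ℕ))
  have hwinj : Function.Injective w := by
    intro i j hij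
    have hbij := FiniteField.bijective_frobeniusAlgHom_pow F L
    have h1 : FiniteField.frobeniusAlgHom F L ^ (i : ℕ) =
        FiniteField.frobeniusAlgHom F L ^ (j : ℕ) := by
      apply AlgHom.ext
      intro x
      have h3 := DFunLike.congr_fun hij x
      exact (algebraMap L E).injective h3
    have h3 := hbij.1 (a₁ := finCongr hfr.symm i) (a₂ := finCongr hfr.symm j) h1
    exact (finCongr hfr.symm).injective h3
  have hwbij : Function.Bijective w := by
    apply hwinj.bijective_of_nat_card_le
    rw [Nat.card_eq_fintype_card, AlgHom.card, hfr, Nat.card_eq_fintype_card, Fintype.card_fin]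
  let e : Fin pb.dim ≃ (L →ₐ[F] E) := Equiv.ofBijective w hwbij
  have he : ∀ i : Fin pb.dim, e i pb.gen = algebraMap L E (pb.gen ^ q ^ (i : ℕ)) := by
    intro i
    change algebraMap L E ((FiniteField.frobeniusAlgHom F L ^ (i : ℕ)) pb.gen) = _
    rw [AlgHom.coe_pow, FiniteField.coe_frobeniusAlgHom, pow_iterate]
  let v : Fin pb.dim → L := fun i => pb.gen ^ q ^ (i : ℕ)
  set δ : L := (Matrix.vandermonde v).det with hδ
  have hD : algebraMap F L (Algebra.discr F pb.basis) = δ ^ 2 := by
    apply (algebraMap L E).injective
    rw [← IsScalarTower.algebraMap_apply, Algebra.discr_powerBasis_eq_prod F E pb e, hδ,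
      Matrix.det_vandermonde, ← Finset.prod_pow, map_prod]
    refine Finset.prod_congr rfl fun i _ => ?_
    rw [← Finset.prod_pow, map_prod]
    refine Finset.prod_congr rfl fun j _ => ?_
    rw [he, he, ← map_sub, ← map_pow]
  have hgen : pb.gen ^ q ^ (n + 1) = pb.gen := by
    have h1 := pow_orderOf_eq_one (FiniteField.frobeniusAlgHom F L)
    rw [FiniteField.orderOf_frobeniusAlgHom, hfr, hn] at h1
    have h3 := DFunLike.congr_fun h1 pb.gen
    rwa [AlgHom.coe_pow, FiniteField.coe_frobeniusAlgHom, pow_iterate, AlgHom.one_apply] at h3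
  have hrot : ∀ i : Fin pb.dim, FiniteField.frobeniusAlgHom F L (v i) = v (finRotate _ i) := by
    intro i
    change (v i) ^ q = _
    change (pb.gen ^ q ^ (i : ℕ)) ^ q = pb.gen ^ q ^ ((finRotate _ i : Fin _) : ℕ)
    rw [← pow_mul, ← pow_succ]
    clear_value v e
    revert i
    rw [hn]
    intro i
    rcases Nat.lt_or_ge (i : ℕ) n with hi | hi
    · have hne : i ≠ Fin.last n := by
        intro h
        rw [h] at hi
        simp at hi
      rw [coe_finRotate_of_ne_last hne]
    · have hi' : i = Fin.last n := by
        apply Fin.ext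
        rw [Fin.val_last]
        omega
      rw [hi', finRotate_last, Fin.val_last, hgen]
      simp
  have hfrob : δ ^ q = (-1) ^ n * δ := by
    have h1 : FiniteField.frobeniusAlgHom F L δ =
        ((Matrix.vandermonde v).submatrix (finRotate _) id).det := by
      rw [hδ]
      have h3 := RingHom.map_det (FiniteField.frobeniusAlgHom F L : L →+* L) (Matrix.vandermonde v)
      refine h3.trans ?_
      congr 1
      ext i j
      simp only [RingHom.mapMatrix_apply, Matrix.map_apply, Matrix.vandermonde_apply,
        Matrix.submatrix_apply, id]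
      rw [map_pow]
      congr 1
      exact hrot i
    have h5 : pb.dim - 1 = n := by omega
    rw [Matrix.det_permute, sign_finRotate, h5] at h1
    have h3 : FiniteField.frobeniusAlgHom F L δ = δ ^ q := rfl
    rw [← h3, h1]
    push_cast
    rfl
  have hδ0 : δ ≠ 0 := by
    intro h0
    have h1 := Algebra.discr_not_zero_of_basis F pb.basis
    rw [h0, zero_pow two_ne_zero] at hD
    exact h1 ((map_eq_zero (algebraMap F L)).1 hD)
  have h2L : (2 : L) ≠ 0 := by
    intro h
    apply h2
    have : algebraMap F L 2 = 0 := by rw [map_ofNat, h]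
    exact (map_eq_zero (algebraMap F L)).1 this
  have hdn : Odd pb.dim ↔ Odd (n + 1) := by rw [hn]
  rw [hdn]
  constructor
  · rintro ⟨c, hc⟩
    by_contra hodd
    have hnodd : Odd n := by
      rw [Nat.not_odd_iff_even] at hodd
      rcases Nat.even_or_odd n with h | h
      · exact absurd hodd (by simpa [Nat.even_add_one] using h)
      · exact h
    rw [hnodd.neg_one_pow] at hfrob
    have h1 : δ ^ 2 = (algebraMap F L c) ^ 2 := by
      rw [← hD, hc, map_mul, sq]
    have h3 : δ ^ q = δ := by
      rcases sq_eq_sq_iff_eq_or_eq_neg.1 h1 with h | h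
      · rw [h, ← map_pow, FiniteField.pow_card]
      · rw [h, ← map_neg, ← map_pow, FiniteField.pow_card]
    rw [h3] at hfrob
    have h4 : 2 * δ = 0 := by linear_combination hfrob
    rcases mul_eq_zero.1 h4 with h | h
    · exact h2L h
    · exact hδ0 h
  · intro hodd
    have hneven : Even n := by
      rcases Nat.even_or_odd n with h | h
      · exact h
      · exact absurd hodd (by simpa [Nat.odd_add_one] using h)
    rw [hneven.neg_one_pow, one_mul] at hfrob
    obtain ⟨c, hc⟩ := exists_of_frob_fixed (F := F) δ hfrob
    refine ⟨c, ?_⟩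
    apply (algebraMap F L).injective
    rw [hD, map_mul, hc, sq]

/-- The parity theorem in terms of the norm of the derivative. -/
theorem isSquare_norm_iff (h2 : (2 : F) ≠ 0) (g : F[X]) (hm : g.Monic) [Fact (Irreducible g)] :
    IsSquare ((-1 : F) ^ (g.natDegree * (g.natDegree - 1) / 2) *
      Algebra.norm F (aeval (AdjoinRoot.root g) (derivative g))) ↔ Odd g.natDegree := by
  have hi : Irreducible g := Fact.out
  have hfin : Module.Finite F (AdjoinRoot g) := hm.finite_adjoinRoot
  have : Finite (AdjoinRoot g) := Module.finite_of_finite F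
  let pb := AdjoinRoot.powerBasis hi.ne_zero
  have h1 : pb.dim = g.natDegree := rfl
  have h3 : minpoly F pb.gen = g := by
    have h4 := AdjoinRoot.minpoly_root hi.ne_zero
    rw [hm.leadingCoeff, inv_one, C_1, mul_one] at h4
    exact h4
  have h4 := isSquare_discr_iff h2 pb
  rw [Algebra.discr_powerBasis_eq_norm, h3, pb.finrank, h1] at h4
  exact h4

end

end Pool.Agent.IRR46
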