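import Pool.Agent.IRR46.Defs
import Pool.Agent.IRR46.Parity

set_option autoImplicit false

open Polynomial

namespace Pool.Agent.IRR46

section

variable {F : Type} [Field F] [Fintype F]

lemma finrank_adjoin (g : F[X]) (h0 : g ≠ 0) : Module.finrank F (AdjoinRoot g) = g.natDegree :=
  (AdjoinRoot.powerBasis h0).finrank

lemma parity_const (h2 : (2 : F) ≠ 0) (g : F[X]) (hm : g.Monic) (hi : Irreducible g) (c : F)
    (hd : derivative g = C c) :
    IsSquare ((-1 : F) ^ (g.natDegree * (g.natDegree - 1) / 2) * c ^ g.natDegree) ↔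
      Odd g.natDegree := by
  have : Fact (Irreducible g) := ⟨hi⟩
  rw [← isSquare_norm_iff h2 g hm, hd, aeval_C, Algebra.norm_algebraMap,
    finrank_adjoin g hi.ne_zero]

lemma parity_pow (h2 : (2 : F) ≠ 0) (g : F[X]) (hm : g.Monic) (hi : Irreducible g) (c : F)
    (k : ℕ) (hk : 1 ≤ k) (hdeg : g.natDegree = 2 * k + 1)
    (hd : derivative g = C c * X ^ (2 * k)) :
    IsSquare ((-1 : F) ^ (k * (2 * k + 1)) * c ^ (2 * k + 1)) := by
  have : Fact (Irreducible g) := ⟨hi⟩
  have hodd : Odd g.natDegree := by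
    rw [hdeg]
    exact odd_two_mul_add_one k
  have h1 := (isSquare_norm_iff h2 g hm).2 hodd
  have hfin : Module.Finite F (AdjoinRoot g) := hm.finite_adjoinRoot
  have hsep : g.Separable := PerfectField.separable_of_irreducible hi
  have h3 : aeval (AdjoinRoot.root g) (derivative g) ≠ 0 := by
    apply hsep.aeval_derivative_ne_zero
    exact AdjoinRoot.eval₂_root g
  have h4 : AdjoinRoot.root g ≠ 0 := by
    intro h0
    apply h3
    rw [hd, map_mul, map_pow, aeval_X, h0, zero_pow (by omega), mul_zero]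
  rw [hd, map_mul, map_pow, aeval_X, aeval_C, map_mul, map_pow, Algebra.norm_algebraMap,
    finrank_adjoin g hi.ne_zero, hdeg] at h1
  set N := Algebra.norm F (AdjoinRoot.root g) with hN
  have hN0 : N ≠ 0 := Algebra.norm_ne_zero_iff.2 h4
  have e1 : (2 * k + 1) * (2 * k + 1 - 1) / 2 = k * (2 * k + 1) := by
    have : (2 * k + 1) * (2 * k + 1 - 1) = k * (2 * k + 1) * 2 := by
      rw [Nat.add_sub_cancel]
      ring
    rw [this, Nat.mul_div_cancel _ (by norm_num)]
  rw [e1] at h1
  obtain ⟨t, ht⟩ := h1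
  refine ⟨t / N ^ k, ?_⟩
  have hNk : N ^ k ≠ 0 := pow_ne_zero _ hN0
  rw [div_mul_div_comm, ← ht, ← pow_add, ← two_mul, ← mul_assoc,
    mul_div_assoc, div_self (pow_ne_zero _ hN0), mul_one]

lemma isSquare_of_pow_odd (z : F) (k : ℕ) (h : IsSquare (z ^ (2 * k + 1))) : IsSquare z := by
  by_cases hz : z = 0
  · rw [hz]
    exact IsSquare.zero
  · obtain ⟨t, ht⟩ := h
    refine ⟨t / z ^ k, ?_⟩
    have hz' : z ^ (k + k) ≠ 0 := pow_ne_zero _ hz
    rw [div_mul_div_comm, ← ht, ← pow_add, pow_succ, two_mul, mul_comm, mul_div_assoc,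
      div_self hz', mul_one]

lemma neg_one_pow_eq (k : ℕ) (c : F) :
    (-1 : F) ^ (k * (2 * k + 1)) * c ^ (2 * k + 1) = ((-1) ^ k * c) ^ (2 * k + 1) := by
  rw [mul_pow, pow_mul]

lemma subst_monic (p d : ℕ) (u : F[X]) (hu : u.natDegree < d) (hpd : p < d) (a b : F) :
    ((C a * X + C b) ^ p + (X ^ d + u) : F[X]).Monic ∧
      ((C a * X + C b) ^ p + (X ^ d + u) : F[X]).natDegree = d := by
  have h1 : ((C a * X + C b) ^ p + (X ^ d + u) : F[X]) = X ^ d + ((C a * X + C b) ^ p + u) := by
    ring
  have h2 : ((C a * X + C b) ^ p + u : F[X]).natDegree < d := by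
    refine lt_of_le_of_lt (natDegree_add_le _ _) (max_lt ?_ hu)
    refine lt_of_le_of_lt natDegree_pow_le ?_
    have h3 : (C a * X + C b : F[X]).natDegree ≤ 1 := natDegree_linear_le
    calc p * (C a * X + C b : F[X]).natDegree ≤ p * 1 := Nat.mul_le_mul_left _ h3
      _ < d := by omega
  have h3 : ((C a * X + C b) ^ p + u : F[X]).degree < d :=
    lt_of_le_of_lt degree_le_natDegree (by exact_mod_cast h2)
  rw [h1]
  refine ⟨monic_X_pow_add h3, ?_⟩
  rw [natDegree_add_eq_left_of_natDegree_lt, natDegree_X_pow]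
  rw [natDegree_X_pow]
  exact h2

/-- All multiples `d > p` of the odd characteristic `p`, except for `d ≡ 2 (mod 4)` and
`q ≡ 3 (mod 4)`. -/
theorem fails_mult (p : ℕ) [Fact p.Prime] [CharP F p] (hp2 : p ≠ 2) (d : ℕ) (hpd : p ∣ d)
    (hlt : p < d) (h : Odd d ∨ 4 ∣ d ∨ IsSquare (-1 : F)) : Fails F d := by
  have hp : p.Prime := Fact.out
  have h2 : (2 : F) ≠ 0 := by
    intro h0
    have h1 : ((2 : ℕ) : F) = 0 := by exact_mod_cast h0
    have h3 := (CharP.cast_eq_zero_iff F p 2).1 h1
    exact hp2 ((Nat.prime_dvd_prime_iff_eq hp Nat.prime_two).1 h3)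
  have hringChar : ringChar F ≠ 2 := by
    rw [ringChar.eq F p]
    exact hp2
  have hd0 : (d : F) = 0 := (CharP.cast_eq_zero_iff F p d).2 hpd
  -- the choice of the constant
  obtain ⟨c, hc0, hc⟩ : ∃ c : F, c ≠ 0 ∧
      ¬ (IsSquare ((-1 : F) ^ (d * (d - 1) / 2) * c ^ d) ↔ Odd d) := by
    rcases Nat.even_or_odd d with he | ho
    · refine ⟨1, one_ne_zero, ?_⟩
      rw [one_pow, mul_one]
      intro hiff
      have hno : ¬ Odd d := by rwa [Nat.not_odd_iff_even]
      apply hno
      apply hiff.1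
      rcases h with h | h | h
      · exact absurd h hno
      · obtain ⟨j, hj⟩ := h
        have h3 : d * (d - 1) / 2 = 2 * (j * (d - 1)) := by
          have : d * (d - 1) = 2 * (j * (d - 1)) * 2 := by
            conv_lhs => rw [hj]
            rw [hj]
            ring
          rw [this, Nat.mul_div_cancel _ (by norm_num)]
        rw [h3, pow_mul]
        simp
      · exact h.pow _
    · obtain ⟨k, hk⟩ := ho
      obtain ⟨z, hz⟩ := FiniteField.exists_nonsquare hringChar
      refine ⟨(-1) ^ k * z, ?_, ?_⟩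
      · intro h0
        rcases mul_eq_zero.1 h0 with h1 | h1
        · exact pow_ne_zero k (neg_ne_zero.2 one_ne_zero) h1
        · apply hz
          rw [h1]
          exact IsSquare.zero
      · intro hiff
        have h1 := hiff.2 ⟨k, hk⟩
        have e1 : d * (d - 1) / 2 = k * (2 * k + 1) := by
          have : d * (d - 1) = k * (2 * k + 1) * 2 := by
            rw [hk, Nat.add_sub_cancel]
            ring
          rw [this, Nat.mul_div_cancel _ (by norm_num)]
        rw [e1, hk, neg_one_pow_eq, ← mul_assoc, ← pow_add, ← two_mul, pow_mul] at h1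
        simp only [even_two, Even.neg_pow, one_pow, one_mul] at h1
        exact hz (isSquare_of_pow_odd z k h1)
  have hd1 : 1 < d := lt_trans hp.one_lt hlt
  have hu : (C c * X : F[X]).natDegree < d :=
    lt_of_le_of_lt ((natDegree_C_mul_le c X).trans natDegree_X_le) hd1
  refine ⟨fam p (X ^ d + C c * X), ?_, totalDegree_fam p d _ hu hlt, ?_⟩
  · apply irreducible_fam p hp.pos _ 0
    · simp [zero_pow (by omega : d ≠ 0)]
    · simp only [derivative_add, derivative_X_pow, derivative_mul, derivative_C, derivative_X,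
        eval_add, eval_mul, eval_C, eval_pow, eval_X, zero_mul, mul_one, zero_add, hd0]
      exact hc0
  · intro a b hirr
    rw [lineSubst_fam] at hirr
    obtain ⟨hm, hdeg⟩ := subst_monic p d (C c * X) hu hlt a b
    have hder : derivative ((C a * X + C b) ^ p + (X ^ d + C c * X) : F[X]) = C c := by
      simp only [derivative_add, derivative_X_pow, derivative_pow, derivative_mul, derivative_C,
        derivative_X, hd0, CharP.cast_eq_zero F p]
      simp
    have h3 := parity_const h2 _ hm hirr c hder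
    rw [hdeg] at h3
    exact hc h3

/-- Prime degrees. -/
theorem fails_prime (p : ℕ) [Fact p.Prime] [CharP F p] (hp2 : p ≠ 2) (k : ℕ) (hk : 1 ≤ k)
    (hlt : p < 2 * k + 1) (h : ¬ IsSquare ((-1 : F) ^ k * ((2 * k + 1 : ℕ) : F))) :
    Fails F (2 * k + 1) := by
  have hp : p.Prime := Fact.out
  have h2 : (2 : F) ≠ 0 := by
    intro h0
    have h1 : ((2 : ℕ) : F) = 0 := by exact_mod_cast h0
    have h3 := (CharP.cast_eq_zero_iff F p 2).1 h1
    exact hp2 ((Nat.prime_dvd_prime_iff_eq hp Nat.prime_two).1 h3)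
  have hd0 : ((2 * k + 1 : ℕ) : F) ≠ 0 := by
    intro h0
    apply h
    rw [h0, mul_zero]
    exact IsSquare.zero
  have hu : (C (-1) : F[X]).natDegree < 2 * k + 1 := by
    rw [natDegree_C]
    omega
  refine ⟨fam p (X ^ (2 * k + 1) + C (-1)), ?_, totalDegree_fam p _ _ hu hlt, ?_⟩
  · apply irreducible_fam p hp.pos _ 1
    · simp
    · simp only [derivative_add, derivative_X_pow, derivative_C, eval_add, eval_mul, eval_C,
        eval_pow, eval_X, one_pow, mul_one, eval_zero, add_zero]
      exact hd0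
  · intro a b hirr
    rw [lineSubst_fam] at hirr
    obtain ⟨hm, hdeg⟩ := subst_monic p (2 * k + 1) (C (-1)) hu hlt a b
    have hder : derivative ((C a * X + C b) ^ p + (X ^ (2 * k + 1) + C (-1)) : F[X]) =
        C ((2 * k + 1 : ℕ) : F) * X ^ (2 * k) := by
      rw [derivative_add, derivative_add, derivative_pow, derivative_X_pow, derivative_C,
        CharP.cast_eq_zero F p]
      simp
    have h3 := parity_pow h2 _ hm hirr _ k hk hdeg hder
    rw [neg_one_pow_eq] at h3
    exact h (isSquare_of_pow_odd _ k h3)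

end

end Pool.Agent.IRR46
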